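import Mathlib

/-!
# Fixed points of the mean `λ`-Aluthge transform are the quasi-normal operators
-/

namespace Pool.Agent.Results.MP_a9e7a9_an.AluthgeFixed

open ContinuousLinearMap InnerProductSpace

variable {H : Type*} [NormedAddCommGroup H] [InnerProductSpace ℂ H] [CompleteSpace H]

/-- `|T| = (T* T)^{1/2}`. -/
noncomputable def absOp (T : H →L[ℂ] H) : H →L[ℂ] H := CFC.sqrt (star T * T)

/-- `T = V |T|` is the canonical polar decomposition of `T`. -/
structure IsPolar (T V : H →L[ℂ] H) : Prop where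
  /-- `V` is a partial isometry. -/
  isometry : V * star V * V = V
  /-- `T = V |T|`. -/
  eq : T = V * absOp T
  /-- `ker V = ker T`. -/
  ker : ∀ x, V x = 0 ↔ T x = 0

/-- The power `P ^ μ` of a positive operator (continuous functional calculus; `P ^ 0 = 1`). -/
noncomputable def pw (P : H →L[ℂ] H) (μ : ℝ) : H →L[ℂ] H := cfc (fun t : ℝ => t ^ μ) P

/-- The `μ`-Aluthge transform `|T|^μ V |T|^{1-μ}` of `T = V |T|`. -/
noncomputable def aluthge (μ : ℝ) (T V : H →L[ℂ] H) : H →L[ℂ] H :=
  pw (absOp T) μ * V * pw (absOp T) (1 - μ)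

/-- The mean `l`-Aluthge transform. -/
noncomputable def meanAluthge (l : ℝ) (T V : H →L[ℂ] H) : H →L[ℂ] H :=
  (1 / 2 : ℂ) • (aluthge l T V + aluthge (1 - l) T V)

section calculus

lemma norm_sq_cfc {P : H →L[ℂ] H} {f : ℝ → ℝ} (hf : ContinuousOn f (spectrum ℝ P)) (x : H) :
    ‖cfc f P x‖ ^ 2 = RCLike.re (inner ℂ (cfc (fun t => f t * f t) P x) x) := by
  have h1 : IsSelfAdjoint (cfc f P) := cfc_predicate f P
  rw [cfc_mul f f P hf hf]
  change ‖cfc f P x‖ ^ 2 = RCLike.re (inner ℂ (cfc f P (cfc f P x)) x)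
  rw [← adjoint_inner_right, ← star_eq_adjoint, h1.star_eq, inner_self_eq_norm_sq]

lemma re_cfc_mono {P : H →L[ℂ] H} {f g : ℝ → ℝ}
    (hf : ContinuousOn f (spectrum ℝ P)) (hg : ContinuousOn g (spectrum ℝ P))
    (h : ∀ t ∈ spectrum ℝ P, f t ≤ g t) (x : H) :
    RCLike.re (inner ℂ (cfc f P x) x) ≤ RCLike.re (inner ℂ (cfc g P x) x) := by
  have h1 : cfc f P ≤ cfc g P := cfc_mono h hf hg
  rw [le_def] at h1
  have h2 := h1.re_inner_nonneg_left x
  rw [sub_apply, inner_sub_left, map_sub] at h2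
  linarith

lemma norm_cfc_le {P : H →L[ℂ] H} {f g : ℝ → ℝ}
    (hf : ContinuousOn f (spectrum ℝ P)) (hg : ContinuousOn g (spectrum ℝ P))
    (h : ∀ t ∈ spectrum ℝ P, |f t| ≤ |g t|) (x : H) : ‖cfc f P x‖ ≤ ‖cfc g P x‖ := by
  have h1 : ‖cfc f P x‖ ^ 2 ≤ ‖cfc g P x‖ ^ 2 := by
    rw [norm_sq_cfc hf, norm_sq_cfc hg]
    refine re_cfc_mono (hf.mul hf) (hg.mul hg) (fun t ht => ?_) x
    have := h t ht
    have h2 := mul_self_le_mul_self (abs_nonneg _) this
    rwa [abs_mul_abs_self, abs_mul_abs_self] at h2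
  exact le_of_sq_le_sq h1 (norm_nonneg _)

lemma eq_zero_of {P Q : H →L[ℂ] H} (hP : IsSelfAdjoint P) (hQP : Q * P = 0)
    (hker : ∀ x, P x = 0 → Q x = 0) : Q = 0 := by
  set K := P.range.topologicalClosure with hK
  have : CompleteSpace K := (Submodule.isClosed_topologicalClosure _).completeSpace_coe
  have h1 : ∀ x ∈ K, Q x = 0 := by
    intro x hx
    have h2 : K ≤ Q.ker := by
      refine Submodule.topologicalClosure_minimal _ ?_ Q.isClosed_ker
      rintro _ ⟨y, rfl⟩
      have := DFunLike.congr_fun hQP y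
      simpa using this
    exact h2 hx
  ext x
  rw [zero_apply]
  obtain ⟨y, hy, z, hz, rfl⟩ := K.exists_add_mem_mem_orthogonal x
  rw [map_add, h1 y hy, zero_add]
  apply hker
  rw [hK, Submodule.orthogonal_closure] at hz
  have h3 : ∀ w, inner ℂ w (P z) = 0 := by
    intro w
    have h4 := hz (P w) ⟨w, rfl⟩
    have h5 : inner ℂ w (P z) = inner ℂ (P w) z := by
      have := adjoint_inner_left P z w
      rw [← star_eq_adjoint, hP.star_eq] at this
      exact this.symm
    rw [h5, h4]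
  exact inner_self_eq_zero.1 (h3 _)

end calculus

section partition

/-- Clamping to `[0, 1]`. -/
noncomputable def cl (t : ℝ) : ℝ := max 0 (min 1 t)

lemma cl_mono : Monotone cl := fun _ _ h => max_le_max_left 0 (min_le_min_left 1 h)

lemma cl_of_le {t : ℝ} (h : t ≤ 0) : cl t = 0 := by
  unfold cl
  rw [max_eq_left]
  exact (min_le_right _ _).trans h

lemma cl_of_ge {t : ℝ} (h : 1 ≤ t) : cl t = 1 := by
  unfold cl
  rw [min_eq_left h]
  norm_num

@[fun_prop]
lemma continuous_cl : Continuous cl := by unfold cl; fun_prop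

lemma cl_nonneg (t : ℝ) : 0 ≤ cl t := le_max_left _ _

lemma cl_le_one (t : ℝ) : cl t ≤ 1 := max_le zero_le_one (min_le_left _ _)

/-- The hat functions. -/
noncomputable def hat (e : ℝ) (i : ℕ) (t : ℝ) : ℝ := cl (t / e - i + 1) - cl (t / e - i)

lemma hat_nonneg (e : ℝ) (i : ℕ) (t : ℝ) : 0 ≤ hat e i t :=
  sub_nonneg.2 (cl_mono (by linarith))

lemma hat_le_one (e : ℝ) (i : ℕ) (t : ℝ) : hat e i t ≤ 1 := by
  unfold hat
  linarith [cl_nonneg (t / e - i), cl_le_one (t / e - i + 1)]

@[fun_prop]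
lemma continuous_hat (e : ℝ) (i : ℕ) : Continuous (hat e i) := by
  unfold hat
  fun_prop

lemma hat_sum {e : ℝ} {N : ℕ} {t : ℝ} (h0 : 0 ≤ t / e) (hN : t / e ≤ N) :
    ∑ i ∈ Finset.range (N + 1), hat e i t = 1 := by
  have h : ∀ i ∈ Finset.range (N + 1), hat e i t =
      (-cl (t / e - ((i + 1 : ℕ) : ℝ) + 1)) - (-cl (t / e - (i : ℝ) + 1)) := by
    intro i _
    unfold hat
    push_cast
    have : t / e - (i + 1) + 1 = t / e - i := by ring
    rw [this]
    ring
  rw [Finset.sum_congr rfl h, Finset.sum_range_sub (fun i : ℕ => -cl (t / e - (i : ℝ) + 1))]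
  rw [cl_of_le (by push_cast; linarith), cl_of_ge (by push_cast; linarith)]
  norm_num

lemma hat_supp {e : ℝ} (he : 0 < e) (i : ℕ) (t : ℝ) :
    |(t - i * e) * hat e i t| ≤ |e * hat e i t| := by
  rw [abs_mul, abs_mul]
  by_cases h : |t - i * e| ≤ |e|
  · exact mul_le_mul_of_nonneg_right h (abs_nonneg _)
  · push Not at h
    rw [abs_of_pos he, lt_abs] at h
    have h0 : hat e i t = 0 := by
      unfold hat
      rcases h with h | h
      · have h1 : (i : ℝ) + 1 ≤ t / e := by
          rw [le_div_iff₀ he]; linarith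
        rw [cl_of_ge (by linarith), cl_of_ge (by linarith), sub_self]
      · have h1 : t / e ≤ (i : ℝ) - 1 := by
          rw [div_le_iff₀ he]; linarith
        rw [cl_of_le (by linarith), cl_of_le (by linarith), sub_self]
    rw [h0]
    simp

/-- If `s ‖D x‖ ≤ C ‖(P - s) x‖` for all `x` and all `0 < s ≤ M`, where the spectrum of the positive
operator `P` is contained in `[0, M]`, then `D P = 0`. -/
lemma mul_eq_zero_of {P D : H →L[ℂ] H} (hP : IsSelfAdjoint P) {M C : ℝ} (hM : 0 < M) (hC : 0 ≤ C)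
    (hspec : ∀ t ∈ spectrum ℝ P, 0 ≤ t ∧ t ≤ M)
    (h : ∀ s, 0 < s → s ≤ M → ∀ x, s * ‖D x‖ ≤ C * ‖P x - (s : ℂ) • x‖) : D * P = 0 := by
  ext x
  change D (P x) = 0
  by_contra hne
  have hpos : 0 < ‖D (P x)‖ := norm_pos_iff.2 hne
  set K := C + ‖D‖ with hK
  have hKn : 0 ≤ K := by positivity
  have key : ∀ N : ℕ, 0 < N → ‖D (P x)‖ ^ 2 ≤ 2 * (K * M * ‖x‖) ^ 2 * (1 / (N : ℝ)) := by
    intro N hN
    have hN' : (0 : ℝ) < N := Nat.cast_pos.2 hN
    set e := M / N with he
    have hepos : 0 < e := by positivity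
    have hcont : ∀ i, ContinuousOn (hat e i) (spectrum ℝ P) := fun i =>
      (continuous_hat e i).continuousOn
    have hsum : x = ∑ i ∈ Finset.range (N + 1), cfc (hat e i) P x := by
      have h1 : ∑ i ∈ Finset.range (N + 1), cfc (hat e i) P = (1 : H →L[ℂ] H) := by
        rw [← cfc_sum (fun i => hat e i) P _ (fun i _ => hcont i), ← cfc_const_one ℝ P]
        refine cfc_congr fun t ht => ?_
        rw [Finset.sum_apply]
        refine hat_sum ?_ ?_
        · have := (hspec t ht).1; positivity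
        · rw [div_le_iff₀ hepos, he, mul_div_cancel₀ _ hN'.ne']
          exact (hspec t ht).2
      have h2 := DFunLike.congr_fun h1 x
      rw [sum_apply] at h2
      exact h2.symm
    have hshift : ∀ s : ℝ, ∀ i, P (cfc (hat e i) P x) - (s : ℂ) • cfc (hat e i) P x =
        cfc (fun t => (t - s) * hat e i t) P x := by
      intro s i
      have h1 : cfc (fun t => (t - s) * hat e i t) P = (P - algebraMap ℝ _ s) * cfc (hat e i) P := by
        rw [cfc_mul (fun t => t - s) (hat e i) P (by fun_prop) (hcont i),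
          cfc_sub (fun t => t) (fun _ => s) P (by fun_prop) (by fun_prop), cfc_id' ℝ P,
          cfc_const s P]
      rw [h1]
      rfl
    have hpiece : ∀ i ∈ Finset.range (N + 1),
        ‖D (P (cfc (hat e i) P x))‖ ≤ K * e * ‖cfc (hat e i) P x‖ := by
      intro i hi
      set y := cfc (hat e i) P x with hy
      have h1 : ‖P y - (((i : ℝ) * e : ℝ) : ℂ) • y‖ ≤ e * ‖y‖ := by
        rw [hy, hshift]
        have h2 : ‖cfc (fun t => (t - i * e) * hat e i t) P x‖ ≤
            ‖cfc (fun t => e * hat e i t) P x‖ :=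
          norm_cfc_le (by fun_prop) (by fun_prop) (fun t _ => hat_supp hepos i t) x
        have h3 : cfc (fun t => e * hat e i t) P x = (e : ℂ) • cfc (hat e i) P x := by
          rw [cfc_const_mul e (hat e i) P (hcont i)]
          rfl
        rw [h3, norm_smul, Complex.norm_real, Real.norm_of_nonneg hepos.le] at h2
        exact h2
      have h4 : D (P y) = (((i : ℝ) * e : ℝ) : ℂ) • D y + D (P y - (((i : ℝ) * e : ℝ) : ℂ) • y) := by
        rw [map_sub, map_smul]
        abel
      have h5 : (i : ℝ) * e * ‖D y‖ ≤ C * (e * ‖y‖) := by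
        rcases Nat.eq_zero_or_pos i with hi0 | hi0
        · rw [hi0]
          simp only [Nat.cast_zero, zero_mul]
          positivity
        · have hi' : (0 : ℝ) < i := Nat.cast_pos.2 hi0
          have hiN : (i : ℝ) ≤ N := by
            exact_mod_cast Nat.lt_succ_iff.1 (Finset.mem_range.1 hi)
          have h6 : (i : ℝ) * e ≤ M := by
            calc (i : ℝ) * e ≤ N * e := mul_le_mul_of_nonneg_right hiN hepos.le
              _ = M := by rw [he]; field_simp
          exact (h _ (by positivity) h6 y).trans (mul_le_mul_of_nonneg_left h1 hC)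
      calc ‖D (P y)‖ ≤ ‖(((i : ℝ) * e : ℝ) : ℂ) • D y‖ +
            ‖D (P y - (((i : ℝ) * e : ℝ) : ℂ) • y)‖ := by
            conv_lhs => rw [h4]
            exact norm_add_le _ _
        _ ≤ C * (e * ‖y‖) + ‖D‖ * (e * ‖y‖) := by
            refine add_le_add ?_ ?_
            · rw [norm_smul, Complex.norm_real, Real.norm_of_nonneg (by positivity)]
              exact h5
            · exact (D.le_opNorm _).trans (mul_le_mul_of_nonneg_left h1 (norm_nonneg _))
        _ = K * e * ‖y‖ := by rw [hK]; ring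
    have hsq : ∑ i ∈ Finset.range (N + 1), ‖cfc (hat e i) P x‖ ^ 2 ≤ ‖x‖ ^ 2 := by
      have h1 : ∑ i ∈ Finset.range (N + 1), ‖cfc (hat e i) P x‖ ^ 2 =
          RCLike.re (inner ℂ (cfc (∑ i ∈ Finset.range (N + 1), fun t => hat e i t * hat e i t) P x)
            x) := by
        rw [cfc_sum (fun i t => hat e i t * hat e i t) P _ (fun i _ => by fun_prop), sum_apply,
          sum_inner, map_sum]
        exact Finset.sum_congr rfl fun i _ => norm_sq_cfc (hcont i) x
      have h2 : RCLike.re (inner ℂ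
          (cfc (∑ i ∈ Finset.range (N + 1), fun t => hat e i t * hat e i t) P x) x) ≤
          RCLike.re (inner ℂ (cfc (fun _ : ℝ => (1 : ℝ)) P x) x) := by
        refine re_cfc_mono ?_ (by fun_prop) (fun t ht => ?_) x
        · have hc : Continuous fun t => ∑ i ∈ Finset.range (N + 1), hat e i t * hat e i t := by
            fun_prop
          have heq : (∑ i ∈ Finset.range (N + 1), fun t => hat e i t * hat e i t) =
              fun t => ∑ i ∈ Finset.range (N + 1), hat e i t * hat e i t := by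
            funext t
            rw [Finset.sum_apply]
          rw [heq]
          exact hc.continuousOn
        · rw [Finset.sum_apply]
          calc ∑ i ∈ Finset.range (N + 1), hat e i t * hat e i t
              ≤ ∑ i ∈ Finset.range (N + 1), hat e i t :=
                Finset.sum_le_sum fun i _ => mul_le_of_le_one_left (hat_nonneg e i t)
                  (hat_le_one e i t)
            _ = 1 := by
                refine hat_sum ?_ ?_
                · have := (hspec t ht).1; positivity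
                · rw [div_le_iff₀ hepos, he, mul_div_cancel₀ _ hN'.ne']
                  exact (hspec t ht).2
      rw [h1]
      refine h2.trans ?_
      rw [cfc_const_one ℝ P]
      change RCLike.re (inner ℂ x x) ≤ ‖x‖ ^ 2
      rw [inner_self_eq_norm_sq]
    have hDP : ‖D (P x)‖ ≤ K * e * ∑ i ∈ Finset.range (N + 1), ‖cfc (hat e i) P x‖ := by
      conv_lhs => rw [hsum]
      rw [map_sum, map_sum, Finset.mul_sum]
      exact (norm_sum_le _ _).trans (Finset.sum_le_sum hpiece)
    have hcs : (∑ i ∈ Finset.range (N + 1), ‖cfc (hat e i) P x‖) ^ 2 ≤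
        (N + 1) * ∑ i ∈ Finset.range (N + 1), ‖cfc (hat e i) P x‖ ^ 2 := by
      have := sq_sum_le_card_mul_sum_sq (s := Finset.range (N + 1))
        (f := fun i => ‖cfc (hat e i) P x‖)
      simpa using this
    calc ‖D (P x)‖ ^ 2 ≤ (K * e * ∑ i ∈ Finset.range (N + 1), ‖cfc (hat e i) P x‖) ^ 2 :=
          pow_le_pow_left₀ (norm_nonneg _) hDP 2
      _ = (K * e) ^ 2 * (∑ i ∈ Finset.range (N + 1), ‖cfc (hat e i) P x‖) ^ 2 := by ring
      _ ≤ (K * e) ^ 2 * ((N + 1) * ‖x‖ ^ 2) := by
          refine mul_le_mul_of_nonneg_left (hcs.trans ?_) (sq_nonneg _)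
          exact mul_le_mul_of_nonneg_left hsq (by positivity)
      _ ≤ 2 * (K * M * ‖x‖) ^ 2 * (1 / (N : ℝ)) := by
          rw [he]
          have h1 : (K * (M / N)) ^ 2 * ((N + 1) * ‖x‖ ^ 2) =
              (K * M * ‖x‖) ^ 2 * (((N : ℝ) + 1) / N ^ 2) := by
            field_simp
          rw [h1]
          have h2 : ((N : ℝ) + 1) / N ^ 2 ≤ 2 * (1 / N) := by
            rw [mul_one_div, div_le_div_iff₀ (by positivity) hN']
            have : (1 : ℝ) ≤ N := by exact_mod_cast hN
            nlinarith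
          calc (K * M * ‖x‖) ^ 2 * (((N : ℝ) + 1) / N ^ 2)
              ≤ (K * M * ‖x‖) ^ 2 * (2 * (1 / N)) :=
                mul_le_mul_of_nonneg_left h2 (sq_nonneg _)
            _ = 2 * (K * M * ‖x‖) ^ 2 * (1 / (N : ℝ)) := by ring
  set A := 2 * (K * M * ‖x‖) ^ 2 with hA
  have hAn : 0 ≤ A := by positivity
  obtain ⟨N, hN⟩ := exists_nat_gt (A / ‖D (P x)‖ ^ 2)
  have hN0 : 0 < N := by
    have : (0 : ℝ) < N := lt_of_le_of_lt (by positivity) hN
    exact_mod_cast this
  have h1 := key N hN0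
  rw [mul_one_div, le_div_iff₀ (Nat.cast_pos.2 hN0)] at h1
  rw [div_lt_iff₀ (by positivity)] at hN
  nlinarith

end partition

section elementary

lemma abs_rpow_sub_le {p s θ : ℝ} (hp : 0 ≤ p) (hs : 0 < s) (h0 : 0 ≤ θ) (h1 : θ ≤ 1) :
    |p ^ θ - s ^ θ| ≤ s ^ (θ - 1) * |p - s| := by
  have hsθ : s ^ (θ - 1) * s = s ^ θ := by
    rw [← Real.rpow_add_one hs.ne', sub_add_cancel]
  have hpos : 0 < s ^ (θ - 1) := Real.rpow_pos_of_pos hs _
  -- scale by `s`
  obtain ⟨t, ht, rfl⟩ : ∃ t : ℝ, 0 ≤ t ∧ p = t * s := ⟨p / s, by positivity, by field_simp⟩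
  have h2 : (t * s) ^ θ - s ^ θ = (t ^ θ - 1) * (s ^ (θ - 1) * s) := by
    rw [Real.mul_rpow ht hs.le, hsθ]; ring
  have h3 : t * s - s = (t - 1) * s := by ring
  rw [h2, h3, abs_mul (t ^ θ - 1), abs_mul (t - 1), abs_of_pos (mul_pos hpos hs), abs_of_pos hs]
  have h4 : |t ^ θ - 1| ≤ |t - 1| := by
    rcases le_total 1 t with h | h
    · have h5 : 1 ≤ t ^ θ := Real.one_le_rpow h h0
      have h6 : t ^ θ ≤ t := by
        calc t ^ θ ≤ t ^ (1 : ℝ) := Real.rpow_le_rpow_of_exponent_le h h1
          _ = t := Real.rpow_one t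
      rw [abs_of_nonneg (by linarith), abs_of_nonneg (by linarith)]
      linarith
    · have h5 : t ^ θ ≤ 1 := Real.rpow_le_one ht h h0
      have h6 : t ≤ t ^ θ := by
        rcases ht.eq_or_lt with h7 | h7
        · rw [← h7]; exact Real.rpow_nonneg le_rfl _
        · calc t = t ^ (1 : ℝ) := (Real.rpow_one t).symm
            _ ≤ t ^ θ := Real.rpow_le_rpow_of_exponent_ge h7 h h1
      rw [abs_of_nonpos (by linarith), abs_of_nonpos (by linarith)]
      linarith
  calc |t ^ θ - 1| * (s ^ (θ - 1) * s) ≤ |t - 1| * (s ^ (θ - 1) * s) :=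
        mul_le_mul_of_nonneg_right h4 (by positivity)
    _ = s ^ (θ - 1) * (|t - 1| * s) := by ring

lemma abs_sub_le_h {p s l : ℝ} (hp : 0 ≤ p) (hs : 0 < s) (h0 : 0 ≤ l) (h1 : l ≤ 1 / 2) :
    |p ^ (1 - l) - s ^ (1 - l)| ≤
      |s ^ (1 - 2 * l) * p ^ l + p ^ (1 - l) - 2 * s ^ (1 - l)| := by
  have hsplit : s ^ (1 - l) = s ^ (1 - 2 * l) * s ^ l := by
    rw [← Real.rpow_add hs]; congr 1; ring
  have hpos : 0 < s ^ (1 - 2 * l) := Real.rpow_pos_of_pos hs _
  have h2 : s ^ (1 - 2 * l) * p ^ l + p ^ (1 - l) - 2 * s ^ (1 - l) =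
      s ^ (1 - 2 * l) * (p ^ l - s ^ l) + (p ^ (1 - l) - s ^ (1 - l)) := by
    rw [hsplit]; ring
  rw [h2]
  rcases le_total p s with h | h
  · have h3 : p ^ l ≤ s ^ l := Real.rpow_le_rpow hp h h0
    have h4 : p ^ (1 - l) ≤ s ^ (1 - l) := Real.rpow_le_rpow hp h (by linarith)
    have h5 : s ^ (1 - 2 * l) * (p ^ l - s ^ l) ≤ 0 :=
      mul_nonpos_of_nonneg_of_nonpos hpos.le (by linarith)
    rw [abs_of_nonpos (by linarith), abs_of_nonpos (by linarith)]
    linarith
  · have h3 : s ^ l ≤ p ^ l := Real.rpow_le_rpow hs.le h h0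
    have h4 : s ^ (1 - l) ≤ p ^ (1 - l) := Real.rpow_le_rpow hs.le h (by linarith)
    have h5 : 0 ≤ s ^ (1 - 2 * l) * (p ^ l - s ^ l) := mul_nonneg hpos.le (by linarith)
    rw [abs_of_nonneg (by linarith), abs_of_nonneg (by linarith)]
    linarith

end elementary

section main

lemma absOp_nonneg (T : H →L[ℂ] H) : 0 ≤ absOp T := CFC.sqrt_nonneg _

lemma absOp_mul (T : H →L[ℂ] H) : absOp T * absOp T = star T * T :=
  CFC.sqrt_mul_sqrt_self _ (star_mul_self_nonneg T)

lemma spectrum_bounds {P : H →L[ℂ] H} (hP : 0 ≤ P) :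
    ∀ t ∈ spectrum ℝ P, 0 ≤ t ∧ t ≤ ‖P‖ := by
  intro t ht
  have h1 : 0 ≤ t := spectrum_nonneg_of_nonneg hP ht
  refine ⟨h1, ?_⟩
  have h2 := spectrum.norm_le_norm_mul_of_mem ht
  rw [Real.norm_of_nonneg h1] at h2
  have h3 : ‖(1 : H →L[ℂ] H)‖ ≤ 1 := ContinuousLinearMap.norm_id_le
  calc t ≤ ‖P‖ * ‖(1 : H →L[ℂ] H)‖ := h2
    _ ≤ ‖P‖ * 1 := mul_le_mul_of_nonneg_left h3 (norm_nonneg _)
    _ = ‖P‖ := mul_one _

lemma ker_absOp (T : H →L[ℂ] H) (x : H) (hx : absOp T x = 0) : T x = 0 := by
  have h1 : star T * T = absOp T * absOp T := (absOp_mul T).symm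
  have h2 : ‖T x‖ ^ 2 = 0 := by
    have h3 : ‖T x‖ ^ 2 = RCLike.re (inner ℂ ((star T * T) x) x) := by
      have := ContinuousLinearMap.apply_norm_sq_eq_inner_adjoint_left T x
      rw [this]
      rfl
    rw [h3, h1]
    change RCLike.re (inner ℂ (absOp T (absOp T x)) x) = 0
    rw [hx, map_zero, inner_zero_left, map_zero]
  exact norm_eq_zero.1 (pow_eq_zero_iff two_ne_zero |>.1 h2)

omit [CompleteSpace H] in
lemma cont_rpow {P : H →L[ℂ] H} {μ : ℝ} (hμ : 0 ≤ μ) :
    ContinuousOn (fun t : ℝ => t ^ μ) (spectrum ℝ P) :=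
  (Real.continuous_rpow_const hμ).continuousOn

lemma pw_mul {P : H →L[ℂ] H} (hP : 0 ≤ P) {μ ν : ℝ} (hμ : 0 ≤ μ) (hν : 0 ≤ ν) :
    pw P μ * pw P ν = pw P (μ + ν) := by
  unfold pw
  rw [← cfc_mul _ _ P (cont_rpow hμ) (cont_rpow hν)]
  refine cfc_congr fun t ht => ?_
  exact (Real.rpow_add_of_nonneg (spectrum_bounds hP t ht).1 hμ hν).symm

lemma pw_one {P : H →L[ℂ] H} (hP : 0 ≤ P) : pw P 1 = P := by
  unfold pw
  simp only [Real.rpow_one]
  exact cfc_id' ℝ P

lemma pw_zero {P : H →L[ℂ] H} (hP : 0 ≤ P) : pw P 0 = 1 := by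
  unfold pw
  simp only [Real.rpow_zero]
  exact cfc_const_one ℝ P

lemma commute_of_commute_pw {P V : H →L[ℂ] H} (hP : 0 ≤ P) {μ : ℝ} (hμ : 0 < μ)
    (h : Commute (pw P μ) V) : Commute P V := by
  have h1 : cfc (fun t : ℝ => t ^ μ⁻¹) (pw P μ) = P := by
    unfold pw
    rw [← cfc_comp' (fun t : ℝ => t ^ μ⁻¹) (fun t : ℝ => t ^ μ) P
      ((Real.continuous_rpow_const (inv_nonneg.2 hμ.le)).continuousOn) (cont_rpow hμ.le)]
    conv_rhs => rw [← cfc_id' ℝ P]
    refine cfc_congr fun t ht => ?_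
    exact Real.rpow_rpow_inv (spectrum_bounds hP t ht).1 hμ.ne'
  have h2 := h.cfc_real (fun t : ℝ => t ^ μ⁻¹)
  rwa [h1] at h2

/-- The key step. -/
lemma commute_of_fixed {P V : H →L[ℂ] H} (hP : 0 ≤ P) (hker : ∀ x, P x = 0 → V x = 0)
    {l : ℝ} (h0 : 0 ≤ l) (h1 : l ≤ 1 / 2)
    (hfix : pw P l * V * pw P (1 - l) + pw P (1 - l) * V * pw P l = (2 : ℂ) • (V * P)) :
    Commute P V := by
  have hPs : IsSelfAdjoint P := IsSelfAdjoint.of_nonneg hP
  set a := pw P l with ha
  set b := pw P (1 - 2 * l) with hb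
  set c := pw P (1 - l) with hc
  have hba : b * a = c := by
    rw [hb, ha, pw_mul hP (by linarith) h0, hc]; congr 1; ring
  have hca : c * a = P := by
    rw [hc, ha, pw_mul hP (by linarith) h0]
    have : 1 - l + l = 1 := by ring
    rw [this, pw_one hP]
  have hac : a * c = P := by
    rw [hc, ha, pw_mul hP h0 (by linarith)]
    have : l + (1 - l) = 1 := by ring
    rw [this, pw_one hP]
  have hPb : P * b = b * P := by
    rw [hb]; unfold pw
    have : Commute P (cfc (fun t : ℝ => t ^ (1 - 2 * l)) P) :=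
      ((Commute.refl P).cfc_real _).symm
    exact this
  have hPc : P * c = c * P := by
    rw [hc]; unfold pw
    have : Commute P (cfc (fun t : ℝ => t ^ (1 - l)) P) :=
      ((Commute.refl P).cfc_real _).symm
    exact this
  have hVb : ∀ x, P x = 0 → V (b x) = 0 := by
    intro x hx
    apply hker
    have := DFunLike.congr_fun hPb x
    change P (b x) = b (P x) at this
    rw [this, hx, map_zero]
  have hVc : ∀ x, P x = 0 → V (c x) = 0 := by
    intro x hx
    apply hker
    have := DFunLike.congr_fun hPc x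
    change P (c x) = c (P x) at this
    rw [this, hx, map_zero]
  -- cancel `a` on the right
  have hQ : a * V * b + c * V - (2 : ℂ) • (V * c) = 0 := by
    apply eq_zero_of hPs
    · have h2 : (a * V * b + c * V - (2 : ℂ) • (V * c)) * a = 0 := by
        have h3 : (a * V * b + c * V - (2 : ℂ) • (V * c)) * a =
            a * V * (b * a) + c * V * a - (2 : ℂ) • (V * (c * a)) := by
          rw [sub_mul, add_mul, smul_mul_assoc]
          simp only [mul_assoc]
        rw [h3, hba, hca, hfix, sub_self]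
      rw [← hac, ← mul_assoc, h2, zero_mul]
    · intro x hx
      change a (V (b x)) + c (V x) - (2 : ℂ) • V (c x) = 0
      rw [hVb x hx, hVc x hx, hker x hx]
      simp
  have hQx : ∀ x, c (V x) = (2 : ℂ) • V (c x) - a (V (b x)) := by
    intro x
    have h2 := DFunLike.congr_fun hQ x
    change a (V (b x)) + c (V x) - (2 : ℂ) • V (c x) = 0 at h2
    rw [sub_eq_zero] at h2
    rw [← h2]
    abel
  -- the commutator of `c` and `V` vanishes
  have hD : (c * V - V * c) = 0 := by
    apply eq_zero_of hPs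
    · rcases (norm_nonneg P).eq_or_lt with hM | hM
      · have : P = 0 := norm_eq_zero.1 hM.symm
        rw [this, mul_zero]
      · refine mul_eq_zero_of hPs hM
          (C := 3 * ‖V‖ * ‖P‖ ^ (1 - l) + ‖a‖ * ‖V‖ * ‖P‖ ^ (1 - 2 * l)) (by positivity)
          (spectrum_bounds hP) ?_
        intro s hs hsM x
        have hsx : ∀ y : H, P y - (s : ℂ) • y = cfc (fun t : ℝ => t - s) P y := by
          intro y
          rw [cfc_sub (fun t => t) (fun _ => s) P (by fun_prop) (by fun_prop), cfc_id' ℝ P,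
            cfc_const s P]
          rfl
        have hpow : ∀ (θ : ℝ), 0 ≤ θ → ∀ y : H, pw P θ y - ((s ^ θ : ℝ) : ℂ) • y =
            cfc (fun t : ℝ => t ^ θ - s ^ θ) P y := by
          intro θ hθ y
          rw [cfc_sub (fun t => t ^ θ) (fun _ => s ^ θ) P (cont_rpow hθ) (by fun_prop),
            cfc_const (s ^ θ) P]
          rfl
        have hB : ∀ (θ : ℝ), 0 ≤ θ → θ ≤ 1 → ∀ y : H, ‖pw P θ y - ((s ^ θ : ℝ) : ℂ) • y‖ ≤
            s ^ (θ - 1) * ‖P y - (s : ℂ) • y‖ := by
          intro θ hθ hθ1 y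
          rw [hpow θ hθ, hsx]
          have h2 : ‖cfc (fun t : ℝ => t ^ θ - s ^ θ) P y‖ ≤
              ‖cfc (fun t : ℝ => s ^ (θ - 1) * (t - s)) P y‖ := by
            refine norm_cfc_le ((cont_rpow hθ).sub continuousOn_const) (by fun_prop)
              (fun t ht => ?_) y
            rw [abs_mul, abs_of_pos (Real.rpow_pos_of_pos hs _)]
            exact abs_rpow_sub_le (spectrum_bounds hP t ht).1 hs hθ hθ1
          have h3 : cfc (fun t : ℝ => s ^ (θ - 1) * (t - s)) P y =
              ((s ^ (θ - 1) : ℝ) : ℂ) • cfc (fun t : ℝ => t - s) P y := by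
            rw [cfc_const_mul (s ^ (θ - 1)) (fun t => t - s) P (by fun_prop)]
            rfl
          rw [h3, norm_smul, Complex.norm_real,
            Real.norm_of_nonneg (Real.rpow_pos_of_pos hs _).le] at h2
          exact h2
        have hH : ‖c (V x) - ((s ^ (1 - l) : ℝ) : ℂ) • V x‖ ≤
            ‖((s ^ (1 - 2 * l) : ℝ) : ℂ) • a (V x) + c (V x) -
              ((2 * s ^ (1 - l) : ℝ) : ℂ) • V x‖ := by
          have h2 : ((s ^ (1 - 2 * l) : ℝ) : ℂ) • a (V x) + c (V x) -
              ((2 * s ^ (1 - l) : ℝ) : ℂ) • V x =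
              cfc (fun t : ℝ => s ^ (1 - 2 * l) * t ^ l + t ^ (1 - l) - 2 * s ^ (1 - l)) P
                (V x) := by
            rw [cfc_sub (fun t => s ^ (1 - 2 * l) * t ^ l + t ^ (1 - l))
              (fun _ => 2 * s ^ (1 - l)) P
              (((cont_rpow h0).const_mul _).add (cont_rpow (by linarith))) (by fun_prop),
              cfc_add P (fun t => s ^ (1 - 2 * l) * t ^ l) (fun t => t ^ (1 - l))
              ((cont_rpow h0).const_mul _) (cont_rpow (by linarith)),
              cfc_const_mul (s ^ (1 - 2 * l)) (fun t => t ^ l) P (cont_rpow h0),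
              cfc_const (2 * s ^ (1 - l)) P]
            rfl
          rw [h2, hc, hpow (1 - l) (by linarith)]
          refine norm_cfc_le ((cont_rpow (by linarith)).sub continuousOn_const)
            ((((cont_rpow h0).const_mul _).add (cont_rpow (by linarith))).sub
              continuousOn_const) (fun t ht => ?_) _
          exact abs_sub_le_h (spectrum_bounds hP t ht).1 hs h0 h1
        have hE : ((s ^ (1 - 2 * l) : ℝ) : ℂ) • a (V x) + c (V x) -
              ((2 * s ^ (1 - l) : ℝ) : ℂ) • V x =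
            (2 : ℂ) • V (c x - ((s ^ (1 - l) : ℝ) : ℂ) • x) -
              a (V (b x - ((s ^ (1 - 2 * l) : ℝ) : ℂ) • x)) := by
          rw [hQx, map_sub, map_sub, map_sub, map_smul, map_smul, map_smul, smul_sub, smul_smul]
          push_cast
          abel
        have hBc := hB (1 - l) (by linarith) (by linarith) x
        have hBb := hB (1 - 2 * l) (by linarith) (by linarith) x
        rw [← hc] at hBc
        rw [← hb] at hBb
        set R := ‖P x - (s : ℂ) • x‖ with hR
        have e1 : (1 - l - 1 : ℝ) = -l := by ring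
        have e2 : (1 - 2 * l - 1 : ℝ) = -(2 * l) := by ring
        rw [e1] at hBc
        rw [e2] at hBb
        have hDx : (c * V - V * c) x = (c (V x) - ((s ^ (1 - l) : ℝ) : ℂ) • V x) -
            V (c x - ((s ^ (1 - l) : ℝ) : ℂ) • x) := by
          change c (V x) - V (c x) = _
          rw [map_sub, map_smul]
          abel
        have hn1 : ‖V (c x - ((s ^ (1 - l) : ℝ) : ℂ) • x)‖ ≤ ‖V‖ * (s ^ (-l) * R) :=
          (V.le_opNorm _).trans (mul_le_mul_of_nonneg_left hBc (norm_nonneg _))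
        have hn2 : ‖a (V (b x - ((s ^ (1 - 2 * l) : ℝ) : ℂ) • x))‖ ≤
            ‖a‖ * (‖V‖ * (s ^ (-(2 * l)) * R)) :=
          (a.le_opNorm _).trans (mul_le_mul_of_nonneg_left
            ((V.le_opNorm _).trans (mul_le_mul_of_nonneg_left hBb (norm_nonneg _)))
            (norm_nonneg _))
        have hn3 : ‖c (V x) - ((s ^ (1 - l) : ℝ) : ℂ) • V x‖ ≤
            2 * (‖V‖ * (s ^ (-l) * R)) + ‖a‖ * (‖V‖ * (s ^ (-(2 * l)) * R)) := by
          refine hH.trans ?_
          rw [hE]
          refine (norm_sub_le _ _).trans (add_le_add ?_ hn2)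
          rw [norm_smul]
          have : ‖(2 : ℂ)‖ = 2 := by simp
          rw [this]
          exact mul_le_mul_of_nonneg_left hn1 (by norm_num)
        have hn4 : ‖(c * V - V * c) x‖ ≤
            3 * ‖V‖ * (s ^ (-l) * R) + ‖a‖ * ‖V‖ * (s ^ (-(2 * l)) * R) := by
          rw [hDx]
          refine (norm_sub_le _ _).trans ?_
          linarith
        have es1 : s * s ^ (-l) = s ^ (1 - l) := by
          rw [mul_comm, ← Real.rpow_add_one hs.ne']; congr 1; ring
        have es2 : s * s ^ (-(2 * l)) = s ^ (1 - 2 * l) := by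
          rw [mul_comm, ← Real.rpow_add_one hs.ne']; congr 1; ring
        have em1 : s ^ (1 - l) ≤ ‖P‖ ^ (1 - l) :=
          Real.rpow_le_rpow hs.le hsM (by linarith)
        have em2 : s ^ (1 - 2 * l) ≤ ‖P‖ ^ (1 - 2 * l) :=
          Real.rpow_le_rpow hs.le hsM (by linarith)
        have hRn : 0 ≤ R := norm_nonneg _
        calc s * ‖(c * V - V * c) x‖
            ≤ s * (3 * ‖V‖ * (s ^ (-l) * R) + ‖a‖ * ‖V‖ * (s ^ (-(2 * l)) * R)) :=
              mul_le_mul_of_nonneg_left hn4 hs.le
          _ = (3 * ‖V‖ * (s * s ^ (-l)) + ‖a‖ * ‖V‖ * (s * s ^ (-(2 * l)))) * R := by ring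
          _ = (3 * ‖V‖ * s ^ (1 - l) + ‖a‖ * ‖V‖ * s ^ (1 - 2 * l)) * R := by rw [es1, es2]
          _ ≤ (3 * ‖V‖ * ‖P‖ ^ (1 - l) + ‖a‖ * ‖V‖ * ‖P‖ ^ (1 - 2 * l)) * R := by
              refine mul_le_mul_of_nonneg_right (add_le_add ?_ ?_) hRn
              · exact mul_le_mul_of_nonneg_left em1 (by positivity)
              · exact mul_le_mul_of_nonneg_left em2 (by positivity)
    · intro x hx
      change c (V x) - V (c x) = 0
      rw [hVc x hx, hker x hx, map_zero, sub_zero]
  have hcomm : Commute (pw P (1 - l)) V := sub_eq_zero.1 hD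
  exact commute_of_commute_pw hP (by linarith) hcomm

end main

/-- For `0 ≤ l ≤ 1/2`, the fixed points of the mean `l`-Aluthge transform are exactly the
quasi-normal operators. -/
theorem result (l : ℝ) (h0 : 0 ≤ l) (h1 : l ≤ 1 / 2) (T V : H →L[ℂ] H) (hTV : IsPolar T V) :
    meanAluthge l T V = T ↔ Commute T (star T * T) := by
  set P := absOp T with hPdef
  have hP : 0 ≤ P := absOp_nonneg T
  have hPP : P * P = star T * T := absOp_mul T
  have hT : T = V * P := hTV.eq
  have hker : ∀ x, P x = 0 → V x = 0 := fun x hx => (hTV.ker x).2 (ker_absOp T x hx)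
  have h1l : 1 - (1 - l) = l := by ring
  have hmean : meanAluthge l T V =
      (1 / 2 : ℂ) • (pw P l * V * pw P (1 - l) + pw P (1 - l) * V * pw P l) := by
    unfold meanAluthge aluthge
    rw [h1l]
  constructor
  · intro h
    rw [hmean] at h
    have h2 : pw P l * V * pw P (1 - l) + pw P (1 - l) * V * pw P l = (2 : ℂ) • (V * P) := by
      rw [← hT, ← h, smul_smul]
      norm_num
    have hc := commute_of_fixed hP hker h0 h1 h2
    rw [← hPP]
    have hTP : Commute T P := by
      rw [hT]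
      exact (hc.symm).mul_left (Commute.refl P)
    exact hTP.mul_right hTP
  · intro h
    have h2 : Commute T P := by
      have h3 : Commute (star T * T) T := h.symm
      have h4 : Commute (CFC.sqrt (star T * T)) T := by
        rw [CFC.sqrt_eq_real_sqrt _ (star_mul_self_nonneg T)]
        exact h3.cfcₙ_real _
      exact h4.symm
    have h5 : Commute P V := by
      have h6 : P * V - V * P = 0 := by
        apply eq_zero_of (IsSelfAdjoint.of_nonneg hP)
        · rw [sub_mul, mul_assoc P V P, ← hT]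
          exact sub_eq_zero.2 h2.eq.symm
        · intro x hx
          change P (V x) - V (P x) = 0
          rw [hx, hker x hx, map_zero, map_zero, sub_zero]
      exact sub_eq_zero.1 h6
    have h7 : Commute (pw P l) V := h5.cfc_real _
    have h8 : Commute (pw P (1 - l)) V := h5.cfc_real _
    rw [hmean, h7.eq, h8.eq, mul_assoc, mul_assoc, pw_mul hP h0 (by linarith),
      pw_mul hP (by linarith) h0]
    have e1 : l + (1 - l) = 1 := by ring
    have e2 : 1 - l + l = 1 := by ring
    rw [e1, e2, pw_one hP, ← hT, ← two_smul ℂ T, smul_smul]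
    norm_num

end Pool.Agent.Results.MP_a9e7a9_an.AluthgeFixed
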